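import Pool.Agent.helper17.MK.Spec

/-! Row PA: the sum over `n` with the form `m` prime. -/

set_option autoImplicit false

namespace Pool.Agent.MK

open Finset Real Pool.Agent.helper39.MT Pool.Agent.helper85.FC

theorem PA_small (n : ℕ) (δ c ε : ℝ) (hδ : 0 < δ) (hε : 0 < ε) :
    ∃ a₀ : ℝ, ∀ a : ℝ, a₀ ≤ a → c * (a ^ n * Real.exp (-(δ * a))) ≤ ε := by
  have h1 : Filter.Tendsto (fun a : ℝ => δ * a) Filter.atTop Filter.atTop :=
    Filter.tendsto_id.const_mul_atTop hδ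
  have h2 := ((Real.tendsto_pow_mul_exp_neg_atTop_nhds_zero n).comp h1).const_mul (c / δ ^ n)
  rw [mul_zero] at h2
  have h3 := h2.eventually (ge_mem_nhds hε)
  obtain ⟨a₀, ha₀⟩ := Filter.eventually_atTop.1 h3
  refine ⟨a₀, fun a ha => ?_⟩
  have h4 := ha₀ a ha
  have hδn : δ ^ n ≠ 0 := (pow_pos hδ n).ne'
  have h5 : c / δ ^ n * ((δ * a) ^ n * Real.exp (-(δ * a))) = c * (a ^ n * Real.exp (-(δ * a))) := by
    rw [mul_pow]
    field_simp
  rw [← h5]
  exact h4

theorem PA_pmass0 (a : ℝ) : 0 ≤ pmass a := by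
  unfold pmass
  refine Finset.sum_nonneg fun n _ => mul_nonneg ?_ (Pool.Agent.helper85.MT.wt_nonneg _ _ _)
  unfold lam
  split_ifs
  · exact Real.log_natCast_nonneg n
  · exact le_rfl

theorem PA_pmass2 : ∃ a₁ : ℝ, ∀ a : ℝ, a₁ ≤ a → pmass a ≤ 2 := by
  obtain ⟨C, a₁, hC, h1⟩ := pmass_mass
  obtain ⟨a₂, h2⟩ := mass_bounds
  refine ⟨max (max a₁ a₂) (max C 1), fun a ha => ?_⟩
  have ha1 : a₁ ≤ a := (le_max_left _ _).trans ((le_max_left _ _).trans ha)
  have ha2 : a₂ ≤ a := (le_max_right _ _).trans ((le_max_left _ _).trans ha)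
  have ha3 : C ≤ a := (le_max_left _ _).trans ((le_max_right _ _).trans ha)
  have ha4 : 1 ≤ a := (le_max_right _ _).trans ((le_max_right _ _).trans ha)
  have h3 := (abs_le.1 (h1 a ha1)).2
  have h4 := (h2 a ha2).2
  have h5 : C / a ≤ 1 := (div_le_one (by linarith)).2 ha3
  linarith

theorem PA (h1 : TA_stmt) (h2 : MA_stmt) (h3 : XE_stmt) (h4 : PD_stmt) : PA_stmt := by
  intro k D₀ W A B hStd hk hD b δ ep η la hδ hδ8 hep hep1 hη hη8 hla hlev
  choose aT hT using fun m : Fin k =>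
    h1 k D₀ W A B hStd hk hD η hη (by linarith) 4 (2 * k + 8) 108 m
  obtain ⟨C, aM, hM⟩ := h2 k b D₀ W δ ep hk hδ hδ8 hep hep1 hStd.Wpos hD hStd.small
  obtain ⟨Ck, hCk, hPD⟩ := h4 k
  obtain ⟨aP, hP⟩ := PA_pmass2
  set w : ℝ := (W : ℝ) / Nat.totient W with hw
  have hw0 : 0 ≤ w := by positivity
  obtain ⟨aS, hS⟩ := PA_small (C + 3) δ (4 * w) 1 hδ one_pos
  refine ⟨∑ m : Fin k, |aT m| + |aM| + |aP| + |aS| + Ck + 4, ?_⟩
  intro a ha R hR ζ m m' l₀ l P U hmm hζ hζ2 hl₀ hPP hl hU hMn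
  have hsum0 : 0 ≤ ∑ m : Fin k, |aT m| := Finset.sum_nonneg fun _ _ => abs_nonneg _
  have haT : aT m ≤ a := by
    have h5 : |aT m| ≤ ∑ m : Fin k, |aT m| :=
      Finset.single_le_sum (f := fun m : Fin k => |aT m|) (fun _ _ => abs_nonneg _) (Finset.mem_univ m)
    have := le_abs_self (aT m)
    have := abs_nonneg aM
    have := abs_nonneg aP
    have := abs_nonneg aS
    linarith
  have haM : aM ≤ a := by
    have := le_abs_self aM
    have := abs_nonneg aP
    have := abs_nonneg aS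
    linarith
  have haP : aP ≤ a := by
    have := le_abs_self aP
    have := abs_nonneg aM
    have := abs_nonneg aS
    linarith
  have haS : aS ≤ a := by
    have := le_abs_self aS
    have := abs_nonneg aM
    have := abs_nonneg aP
    linarith
  have haC : Ck ≤ a := by
    have := abs_nonneg aM
    have := abs_nonneg aP
    have := abs_nonneg aS
    linarith
  have ha4 : 4 ≤ a := by
    have := abs_nonneg aM
    have := abs_nonneg aP
    have := abs_nonneg aS
    linarith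
  have ha0 : 0 < a := by linarith
  -- the size of R
  have hRle : (R : ℝ) ≤ Real.exp (a / 4) := by
    rw [hR]
    exact Nat.floor_le (Real.exp_pos _).le
  have hR2 : 2 ≤ R := by
    rw [hR]
    apply Nat.le_floor
    have h5 : Real.exp 1 ≤ Real.exp (a / 4) := Real.exp_le_exp.2 (by linarith)
    have h6 := Real.add_one_le_exp (1 : ℝ)
    push_cast
    linarith
  have hR0 : (0 : ℝ) < R := by
    have : (2 : ℝ) ≤ R := by exact_mod_cast hR2
    linarith
  have hlogR : Real.log R ≤ a := by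
    have h5 := Real.log_le_log hR0 hRle
    rw [Real.log_exp] at h5
    linarith
  have hlogR0 : 0 ≤ Real.log R := Real.log_natCast_nonneg R
  have hR' : (R : ℝ) ≤ Real.exp (a / 2) := hRle.trans (Real.exp_le_exp.2 (by linarith))
  -- the product over the places
  have hprod0 : 0 ≤ ∏ p : PS W R, (1 + (k : ℝ) / ((prP W R p : ℝ) - 1)) := by
    refine Finset.prod_nonneg fun p _ => ?_
    have hp : 2 ≤ ((p : ℕ)) := ((mem_PS.1 p.2).2.1).two_le
    have hp' : (2 : ℝ) ≤ ((p : ℕ) : ℝ) := by exact_mod_cast hp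
    have : (0 : ℝ) ≤ (k : ℝ) / ((prP W R p : ℝ) - 1) := by
      apply div_nonneg (Nat.cast_nonneg k)
      show (0 : ℝ) ≤ ((p : ℕ) : ℝ) - 1
      linarith
    linarith
  have hprod : ∏ p : PS W R, (1 + (k : ℝ) / ((prP W R p : ℝ) - 1)) ≤ a ^ (k + 1) := by
    calc ∏ p : PS W R, (1 + (k : ℝ) / ((prP W R p : ℝ) - 1)) ≤ Ck * Real.log R ^ k := hPD W R hR2
      _ ≤ a * a ^ k := by
          apply mul_le_mul haC (pow_le_pow_left₀ hlogR0 hlogR k) (pow_nonneg hlogR0 k) ha0.le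
      _ = a ^ (k + 1) := by ring
  -- the expansion
  have hXE := h3 (PS W R) k (prP W R) ζ l₀ l (Real.exp (δ * a)) P ∅ m m' (a ^ 3) (Real.exp (η * a))
    (Real.exp (δ * a) ^ b) (Real.exp (la * a)) 1 Subtype.val_injective
    (fun p => ((mem_PS.1 p.2).2.1).two_le) (by positivity)
    (Real.one_le_exp (by positivity)) (one_le_pow₀ (Real.one_le_exp (by positivity)))
    (Real.one_le_exp (by positivity)) le_rfl hζ hζ2
    (fun K _ => ⟨hl₀.le1 K, fun h => (hl₀.lev K h).2⟩) hl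
    (fun K hK h => by
      exfalso
      rw [Finset.subset_empty] at hK
      apply h
      unfold c3
      rw [hK, Finset.card_empty, if_neg (by norm_num)])
  have hX := hXE.2.2.2.2.2.2.1
  have hX' : Expn (prP W R) (fun _ _ => True) (a ^ (2 * k + 8)) 108 (Real.exp ((1 / 2 - η) * a))
      (XA (prP W R) ζ l₀ l (Real.exp (δ * a)) P m m') := by
    refine hX.mono (fun _ _ h => h) ?_ (by positivity) le_rfl ?_
    · calc (a ^ 3) ^ 2 * (∏ p : PS W R, (1 + (k : ℝ) / ((prP W R p : ℝ) - 1))) ^ 2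
          ≤ (a ^ 3) ^ 2 * (a ^ (k + 1)) ^ 2 := by
            apply mul_le_mul_of_nonneg_left (pow_le_pow_left₀ hprod0 hprod 2) (by positivity)
        _ = a ^ (2 * k + 8) := by ring
    · rw [← Real.exp_nat_mul, ← Real.exp_nat_mul, ← Real.exp_add, ← Real.exp_add]
      apply Real.exp_le_exp.2
      have h5 : (2 * η + δ * b + la) * a ≤ (1 / 2 - η) * a := mul_le_mul_of_nonneg_right hlev ha0.le
      push_cast
      linarith
  have hTA := hT m a haT R hR2 hR' _ hX'
  have hMA := hM a haM R hR ζ m m' l₀ l P U hmm hζ (fun σ hσ =>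
    ⟨(hζ2 σ hσ).1.trans (Real.exp_le_exp.2 (by nlinarith)), (hζ2 σ hσ).2⟩) hl₀ hPP
    (fun K hK => (hl K hK).1) hU hMn
  have hpm0 : 0 ≤ pmass (a + Real.log (A m)) := PA_pmass0 _
  have hpm2 : pmass (a + Real.log (A m)) ≤ 2 := by
    apply hP
    have : 0 ≤ Real.log (A m : ℝ) := Real.log_natCast_nonneg _
    linarith
  have hsmall := hS a haS
  have hwpm : 0 ≤ w * pmass (a + Real.log (A m)) := mul_nonneg hw0 hpm0
  have h6 := (abs_le.1 hTA).2
  have h7 := mul_le_mul_of_nonneg_left hMA hwpm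
  have h8 : w * pmass (a + Real.log (A m)) * (a ^ C * Real.exp (-(δ * a))) ≤
      w * 2 * (a ^ C * Real.exp (-(δ * a))) :=
    mul_le_mul_of_nonneg_right (mul_le_mul_of_nonneg_left hpm2 hw0) (by positivity)
  have h9 : w * 2 * (a ^ C * Real.exp (-(δ * a))) ≤ 1 / (2 * a ^ 3) := by
    rw [le_div_iff₀ (by positivity)]
    calc w * 2 * (a ^ C * Real.exp (-(δ * a))) * (2 * a ^ 3)
        = 4 * w * (a ^ (C + 3) * Real.exp (-(δ * a))) := by ring
      _ ≤ 1 := hsmall
  have h10 : 1 / a ^ 4 ≤ 1 / (2 * a ^ 3) := by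
    apply one_div_le_one_div_of_le (by positivity)
    have : 0 < a ^ 3 := by positivity
    calc 2 * a ^ 3 ≤ a * a ^ 3 := mul_le_mul_of_nonneg_right (by linarith) this.le
      _ = a ^ 4 := by ring
  have h11 : 1 / (2 * a ^ 3) + 1 / (2 * a ^ 3) = 1 / a ^ 3 := by
    field_simp
    norm_num
  have h12 : w * pmass (a + Real.log (A m)) * ((1 + ep) * (∏ p ∈ PS W ⌊Real.exp (δ * a)⌋₊,
      (1 - 1 / ((p : ℝ) - 1))) * QF (prP W R) ζ * U + a ^ C * Real.exp (-(δ * a))) =
      w * pmass (a + Real.log (A m)) * ((1 + ep) * (∏ p ∈ PS W ⌊Real.exp (δ * a)⌋₊,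
      (1 - 1 / ((p : ℝ) - 1))) * QF (prP W R) ζ * U) +
      w * pmass (a + Real.log (A m)) * (a ^ C * Real.exp (-(δ * a))) := by ring
  rw [h12] at h7
  linarith

end Pool.Agent.MK
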